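import Mathlib
import Pool.Agent.TH456.TM.Fam
import Pool.Agent.TH456.TM.AlgDep
import Pool.Agent.TH456.TM.Near

/-!
# Algebraic near relations for `ζ(3)` and `ζ(3) / π³`

Lindemann's theorem shows that `ζ(3)` and `ζ(3) / π³` are not both algebraic. We prove
unconditional quantitative versions, for polynomials of arbitrary degree, which do not
distinguish between algebraic numbers and numbers very well approximable by algebraic numbers.

(1) For every `D` and every finite set `K` of integers there is an exponent `κ` such that, for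
`j ≠ k` in `K` and all nonzero integer polynomials `P`, `Q` of degree `≤ D` and height `≤ H`,
the values `P(ζ(3) π^j)` and `Q(ζ(3) π^k)` are not both smaller than `C H^(-κ)`; the exponent `κ` is
the same if `ζ(3)` is replaced by any other complex number `s ≠ 0`.

(2) The near relations of all the numbers `ζ(3) π^k`, `k ∈ K`, together are sparse: there are
at most `log log X / log ρ + C` pairs `(k, P)`, `P` irreducible of degree `≤ D` and height `≤ X`, with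
`|P(ζ(3) π^k)| ≤ height(P)^(-w)`; here `w > κ` and `1 < ρ < w / κ` are arbitrary.

(3) The near relations `F(π, ζ(3))` are sparse: for every `D` there is `κ` such that for `w > κ` and
`1 < ρ < w / κ` there are at most `log log X / log ρ + C` irreducible polynomials `F` in two
variables, of partial degrees `≤ D` and height `≤ X`, with `|F(π, ζ(3))| ≤ height(F)^(-w)`; again
the same `κ` serves for every complex number in place of `ζ(3)`, for instance for Euler's constant.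
-/

set_option autoImplicit false

namespace Pool.Agent.Results.MP_e48a95_nt.AlgebraicNearRelations

open Polynomial Pool.Agent.TH456.TM

/-- The height of an integer polynomial: the largest absolute value of a coefficient. -/
noncomputable def height (P : ℤ[X]) : ℕ := P.support.sup fun i => (P.coeff i).natAbs

/-- The height of an integer polynomial in two variables. -/
noncomputable def height₂ (F : ℤ[X][X]) : ℕ :=
  F.support.sup fun j => (F.coeff j).support.sup fun i => ((F.coeff j).coeff i).natAbs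

/-- The irreducible integer polynomials of degree at most `D`, with positive leading coefficient
(one of `P` and `-P`). -/
def Irr (D : ℕ) : Set ℤ[X] := {P | Irreducible P ∧ P.natDegree ≤ D ∧ 0 < P.leadingCoeff}

/-- The irreducible polynomials in two variables, of degree at most `D` in each variable, with
positive leading coefficient (one of `F` and `-F`). -/
def Irr₂ (D : ℕ) : Set ℤ[X][X] :=
  {F | Irreducible F ∧ F.natDegree ≤ D ∧ (∀ j, (F.coeff j).natDegree ≤ D) ∧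
    0 < F.leadingCoeff.leadingCoeff}

/-- The value `F(x, t)`: the coefficients are evaluated at `x`, the outer variable at `t`. -/
noncomputable def value (x t : ℂ) (F : ℤ[X][X]) : ℂ := aeval t (F.map (aeval x).toRingHom)

/-- The near relations `(k, P)` of exponent `w`, degree `≤ D` and height `≤ X` of the numbers
`s π^k`, `k ∈ K`. -/
def Near (K : Finset ℤ) (s : ℂ) (D : ℕ) (w X : ℝ) : Set (ℤ × ℤ[X]) :=
  {p | p.1 ∈ K ∧ p.2 ∈ Irr D ∧ (height p.2 : ℝ) ≤ X ∧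
    ‖aeval (s * (Real.pi : ℂ) ^ p.1) p.2‖ ≤ (height p.2 : ℝ) ^ (-w)}

/-- The near relations `F(π, t)` of exponent `w`, partial degrees `≤ D` and height `≤ X`. -/
def Near₂ (t : ℂ) (D : ℕ) (w X : ℝ) : Set ℤ[X][X] :=
  {F | F ∈ Irr₂ D ∧ (height₂ F : ℝ) ≤ X ∧
    ‖value (Real.pi : ℂ) t F‖ ≤ (height₂ F : ℝ) ^ (-w)}

/-- `ζ(3)` -/
noncomputable def zeta3 : ℂ := ((∑' n : ℕ, 1 / ((n : ℝ) + 1) ^ 3 : ℝ) : ℂ)

lemma zeta3_ne_zero : zeta3 ≠ 0 := by
  unfold zeta3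
  rw [Complex.ofReal_ne_zero]
  have h1 : Summable fun n : ℕ => 1 / ((n : ℝ) + 1) ^ 3 := by
    have := (summable_nat_add_iff 1).2 (Real.summable_one_div_nat_pow (p := 3) |>.2 (by norm_num))
    simpa using this
  have h2 := h1.tsum_pos (fun n => by positivity) 0 (by norm_num)
  exact h2.ne'

/-- (1) and (2) for an arbitrary number `s`. -/
theorem family (D : ℕ) (K : Finset ℤ) : ∃ κ : ℝ, 0 < κ ∧ ∀ s : ℂ, s ≠ 0 →
    (∃ C : ℝ, 0 < C ∧ ∀ j ∈ K, ∀ k ∈ K, j ≠ k → ∀ P Q : ℤ[X], P ≠ 0 → Q ≠ 0 →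
      P.natDegree ≤ D → Q.natDegree ≤ D → ∀ H : ℝ, (height P : ℝ) ≤ H → (height Q : ℝ) ≤ H →
      C * H ^ (-κ) ≤ max ‖aeval (s * (Real.pi : ℂ) ^ j) P‖ ‖aeval (s * (Real.pi : ℂ) ^ k) Q‖) ∧
    (∀ w ρ : ℝ, 1 < ρ → ρ < w / κ → ∃ C : ℝ, ∀ X : ℝ, 3 ≤ X →
      (Near K s D w X).Finite ∧
      ((Near K s D w X).ncard : ℝ) ≤ Real.log (Real.log X) / Real.log ρ + C) := by
  have hpi0 : (Real.pi : ℂ) ≠ 0 := by exact_mod_cast Real.pi_ne_zero
  obtain ⟨κ, hκ, h⟩ := fam_mul K (fun k => (Real.pi : ℂ) ^ k) (fun k _ => zpow_ne_zero _ hpi0)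
    (fun i _ j _ hij => by
      rw [← zpow_sub₀ hpi0]
      exact measT_zpow measT_pi _ (sub_ne_zero.2 hij.symm)) Real.pi measT_pi D
  refine ⟨κ, hκ, fun s hs => ?_⟩
  obtain ⟨C, hC, h1, h2⟩ := h s hs
  refine ⟨⟨C, hC, h1⟩, fun w ρ hρ hρw => ?_⟩
  obtain ⟨C', h3⟩ := sparse_fam K (fun k => s * (Real.pi : ℂ) ^ k) D κ hκ
    ⟨C, hC, fun i hi j hj P hP Q hQ hne H hPH hQH => by
      by_cases hij : i = j
      · subst hij
        exact h2 i hi P hP Q hQ (fun h => hne (by rw [h])) H hPH hQH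
      · exact h1 i hi j hj hij P Q hP.1.ne_zero hQ.1.ne_zero hP.2.1 hQ.2.1 H hPH hQH⟩ w ρ hρ hρw
  refine ⟨C', fun X hX => ?_⟩
  have h4 : Near K s D w X = {p ∈ NearF K (fun k => s * (Real.pi : ℂ) ^ k) D w |
      (ht p.2 : ℝ) ≤ X} := by
    ext p
    constructor
    · rintro ⟨a, b, c, d⟩
      exact ⟨⟨a, b, d⟩, c⟩
    · rintro ⟨⟨a, b, d⟩, c⟩
      exact ⟨a, b, c, d⟩
  rw [h4]
  exact h3 X hX

/-- (3) for an arbitrary number `t`. -/
theorem twoVariables (D : ℕ) (hD : 1 ≤ D) : ∃ κ : ℝ, 0 < κ ∧ ∀ t : ℂ, ∀ w ρ : ℝ, 1 < ρ →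
    ρ < w / κ → ∃ C : ℝ, ∀ X : ℝ, 3 ≤ X → (Near₂ t D w X).Finite ∧
      ((Near₂ t D w X).ncard : ℝ) ≤ Real.log (Real.log X) / Real.log ρ + C := by
  obtain ⟨κ, hκ, h⟩ := core (Real.pi : ℂ) measT_pi D hD
  refine ⟨κ, hκ, fun t w ρ hρ hρw => ?_⟩
  obtain ⟨C, h1⟩ := sparse_alg (Real.pi : ℂ) D κ hκ h t w ρ hρ hρw
  refine ⟨C, fun X hX => ?_⟩
  have h4 : Near₂ t D w X = {P ∈ {P : ℤ[X][X] | P ∈ IR D ∧
      ‖vl (Real.pi : ℂ) t P‖ ≤ (hgt P : ℝ) ^ (-w)} | (hgt P : ℝ) ≤ X} := by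
    ext p
    have hv : value (Real.pi : ℂ) t p = vl (Real.pi : ℂ) t p := by
      unfold value vl σx
      rw [coe_aeval_eq_eval]
    constructor
    · rintro ⟨a, b, c⟩
      rw [hv] at c
      exact ⟨⟨a, c⟩, b⟩
    · rintro ⟨⟨a, c⟩, b⟩
      refine ⟨a, b, ?_⟩
      rw [hv]
      exact c
  rw [h4]
  exact h1 X hX

/-- Algebraic near relations for `ζ(3)` and `ζ(3) / π³`, and more generally for the numbers
`ζ(3) π^k` and for the pair `π, ζ(3)`. -/
theorem result :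
    (∀ (D : ℕ) (K : Finset ℤ), ∃ κ : ℝ, 0 < κ ∧ ∀ s : ℂ, s ≠ 0 →
      (∃ C : ℝ, 0 < C ∧ ∀ j ∈ K, ∀ k ∈ K, j ≠ k → ∀ P Q : ℤ[X], P ≠ 0 → Q ≠ 0 →
        P.natDegree ≤ D → Q.natDegree ≤ D → ∀ H : ℝ, (height P : ℝ) ≤ H → (height Q : ℝ) ≤ H →
        C * H ^ (-κ) ≤ max ‖aeval (s * (Real.pi : ℂ) ^ j) P‖ ‖aeval (s * (Real.pi : ℂ) ^ k) Q‖) ∧
      (∀ w ρ : ℝ, 1 < ρ → ρ < w / κ → ∃ C : ℝ, ∀ X : ℝ, 3 ≤ X →
        (Near K s D w X).Finite ∧
        ((Near K s D w X).ncard : ℝ) ≤ Real.log (Real.log X) / Real.log ρ + C)) ∧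
    (∀ D : ℕ, 1 ≤ D → ∃ κ : ℝ, 0 < κ ∧ ∀ t : ℂ, ∀ w ρ : ℝ, 1 < ρ →
      ρ < w / κ → ∃ C : ℝ, ∀ X : ℝ, 3 ≤ X → (Near₂ t D w X).Finite ∧
        ((Near₂ t D w X).ncard : ℝ) ≤ Real.log (Real.log X) / Real.log ρ + C) ∧
    (∀ D : ℕ, ∃ κ C : ℝ, 0 < κ ∧ 0 < C ∧ ∀ P Q : ℤ[X], P ≠ 0 → Q ≠ 0 →
      P.natDegree ≤ D → Q.natDegree ≤ D → ∀ H : ℝ, (height P : ℝ) ≤ H → (height Q : ℝ) ≤ H →
      C * H ^ (-κ) ≤ max ‖aeval zeta3 P‖ ‖aeval (zeta3 / (Real.pi : ℂ) ^ 3) Q‖) := by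
  refine ⟨family, twoVariables, fun D => ?_⟩
  obtain ⟨κ, hκ, h⟩ := family D {0, -3}
  obtain ⟨⟨C, hC, h1⟩, -⟩ := h zeta3 zeta3_ne_zero
  refine ⟨κ, C, hκ, hC, fun P Q hP hQ hPD hQD H hPH hQH => ?_⟩
  have h2 := h1 0 (by simp) (-3) (by simp) (by norm_num) P Q hP hQ hPD hQD H hPH hQH
  have e1 : zeta3 * (Real.pi : ℂ) ^ (0 : ℤ) = zeta3 := by rw [zpow_zero, mul_one]
  have e2 : zeta3 * (Real.pi : ℂ) ^ (-3 : ℤ) = zeta3 / (Real.pi : ℂ) ^ 3 := by
    rw [zpow_neg, div_eq_mul_inv]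
    rfl
  rw [e1, e2] at h2
  exact h2

end Pool.Agent.Results.MP_e48a95_nt.AlgebraicNearRelations
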