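import Mathlib
import Pool.Agent.TH456.TM.Fam
import Pool.Agent.TH456.TM.AlgDep

/-!
# Euler's constant and the Euler–Lehmer constants: algebraic near relations

For `q ≥ 1` the Euler–Lehmer constant `γ(0, q)` is the limit of `∑_{k ≤ n, q ∣ k} 1 / k - (log n) / q`;
`γ(0, 1) = γ` is Euler's constant. At most one of these numbers is algebraic. We prove the
unconditional quantitative version, for polynomials of arbitrary degree: two different
Euler–Lehmer constants do not both have small values of integer polynomials of bounded degree, and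
the near relations of finitely many of them together are sparse.
-/

set_option autoImplicit false

namespace Pool.Agent.Results.MP_e48a95_nt.EulerLehmerConstants

open Polynomial Filter Topology Pool.Agent.TH456.TM

/-- The height of an integer polynomial: the largest absolute value of a coefficient. -/
noncomputable def height (P : ℤ[X]) : ℕ := P.support.sup fun i => (P.coeff i).natAbs

/-- The irreducible integer polynomials of degree at most `D`, with positive leading coefficient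
(one of `P` and `-P`). -/
def Irr (D : ℕ) : Set ℤ[X] := {P | Irreducible P ∧ P.natDegree ≤ D ∧ 0 < P.leadingCoeff}

/-- The near relations `(q, P)` of exponent `w`, degree `≤ D` and height `≤ Y` of the numbers
`c q`, `q ∈ S`. -/
def Near (S : Finset ℕ) (c : ℕ → ℝ) (D : ℕ) (w Y : ℝ) : Set (ℕ × ℤ[X]) :=
  {p | p.1 ∈ S ∧ p.2 ∈ Irr D ∧ (height p.2 : ℝ) ≤ Y ∧
    |aeval (c p.1) p.2| ≤ (height p.2 : ℝ) ^ (-w)}

/-- The sequence whose limit is the Euler–Lehmer constant `γ(0, q)`. -/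
noncomputable def partialSum (q n : ℕ) : ℝ :=
  (∑ k ∈ (Finset.Icc 1 n).filter (fun k => q ∣ k), 1 / (k : ℝ)) - Real.log n / q

lemma sum_multiples (q n : ℕ) (hq : 0 < q) :
    (∑ k ∈ (Finset.Icc 1 n).filter (fun k => q ∣ k), 1 / (k : ℝ))
      = (harmonic (n / q) : ℝ) / q := by
  have h1 : (Finset.Icc 1 n).filter (fun k => q ∣ k)
      = (Finset.Icc 1 (n / q)).image (fun j => q * j) := by
    ext k
    simp only [Finset.mem_filter, Finset.mem_Icc, Finset.mem_image]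
    constructor
    · rintro ⟨⟨h1, h2⟩, j, rfl⟩
      refine ⟨j, ⟨?_, ?_⟩, rfl⟩
      · by_contra h
        have : j = 0 := by omega
        subst this
        simp at h1
      · rw [Nat.le_div_iff_mul_le hq, mul_comm]
        exact h2
    · rintro ⟨j, ⟨h1, h2⟩, rfl⟩
      rw [Nat.le_div_iff_mul_le hq, mul_comm] at h2
      exact ⟨⟨Nat.mul_pos hq h1, h2⟩, Dvd.intro j rfl⟩
  rw [h1, Finset.sum_image (fun a _ b _ h => Nat.eq_of_mul_eq_mul_left hq h)]
  rw [harmonic_eq_sum_Icc]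
  push_cast
  rw [Finset.sum_div]
  apply Finset.sum_congr rfl
  intro j _
  rw [one_div, mul_inv, div_eq_mul_inv, mul_comm]

/-- `γ(0, q) = (γ - log q) / q` -/
lemma eulerLehmer_tendsto (q : ℕ) (hq : 0 < q) :
    Tendsto (fun n => partialSum q n) atTop
      (𝓝 ((Real.eulerMascheroniConstant - Real.log q) / q)) := by
  have hqR : (0 : ℝ) < q := by exact_mod_cast hq
  have h1 : Tendsto (fun n : ℕ => n / q) atTop atTop := by
    refine tendsto_atTop.2 fun b => ?_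
    filter_upwards [eventually_ge_atTop (b * q)] with n hn
    rwa [Nat.le_div_iff_mul_le hq]
  have h2 := Real.tendsto_harmonic_sub_log.comp h1
  have h3 : Tendsto (fun n : ℕ => ((n / q : ℕ) : ℝ) / n) atTop (𝓝 (1 / q)) := by
    have h4 := (tendsto_nat_floor_mul_div_atTop (R := ℝ) (a := 1 / q) (by positivity)).comp
      (tendsto_natCast_atTop_atTop (R := ℝ))
    refine h4.congr' ?_
    filter_upwards with n
    simp only [Function.comp]
    have : ⌊(1 / (q : ℝ)) * n⌋₊ = n / q := by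
      rw [one_div_mul_eq_div, Nat.floor_div_natCast, Nat.floor_natCast]
    rw [this]
  have h5 : Tendsto (fun n : ℕ => Real.log (((n / q : ℕ) : ℝ) / n)) atTop
      (𝓝 (Real.log (1 / q))) := h3.log (by positivity)
  have h6 := ((h2.add h5).div_const (q : ℝ))
  have e : Real.eulerMascheroniConstant + Real.log (1 / q)
      = Real.eulerMascheroniConstant - Real.log q := by
    rw [one_div, Real.log_inv]
    ring
  rw [e] at h6
  refine h6.congr' ?_
  filter_upwards [eventually_ge_atTop q] with n hn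
  have hn0 : (0 : ℝ) < n := by
    have : 0 < n := by omega
    exact_mod_cast this
  have hm0 : (0 : ℝ) < ((n / q : ℕ) : ℝ) := by
    have : 0 < n / q := Nat.div_pos hn hq
    exact_mod_cast this
  show (((harmonic (n / q) : ℝ) - Real.log ((n / q : ℕ) : ℝ)) + _) / _ = partialSum q n
  unfold partialSum
  rw [sum_multiples q n hq, Real.log_div hm0.ne' hn0.ne']
  ring

lemma measT_log_quot (q q' : ℕ) (hq : 0 < q) (hq' : 0 < q') (hne : q ≠ q') :
    MeasT (((-Real.log q' - -Real.log q : ℝ)) : ℂ) := by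
  have hqR : (0 : ℝ) < q := by exact_mod_cast hq
  have hqR' : (0 : ℝ) < q' := by exact_mod_cast hq'
  have h1 : (-Real.log q' - -Real.log q : ℝ) = Real.log ((q : ℝ) / q') := by
    rw [Real.log_div hqR.ne' hqR'.ne']
    ring
  rw [h1]
  refine measT_log _ ?_ q q' (by exact_mod_cast hq'.ne') ?_
  · rw [Ne, Complex.ofReal_eq_zero]
    apply Real.log_ne_zero_of_pos_of_ne_one (by positivity)
    rw [Ne, div_eq_one_iff_eq hqR'.ne']
    exact_mod_cast hne
  · rw [← Complex.ofReal_exp, Real.exp_log (by positivity)]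
    push_cast
    have : (q' : ℂ) ≠ 0 := by exact_mod_cast hq'.ne'
    field_simp

/-- scaling the variable -/
lemma scale_eval (P : ℤ[X]) (q : ℕ) (hq : 0 < q) (y : ℂ) :
    aeval y (scaleRoots P (q : ℤ)) = (q : ℂ) ^ P.natDegree * aeval (y / q) P := by
  have hq0 : (q : ℂ) ≠ 0 := by exact_mod_cast hq.ne'
  have h := scaleRoots_eval₂_mul (p := P) (algebraMap ℤ ℂ) (y / q) (q : ℤ)
  have e : (algebraMap ℤ ℂ) (q : ℤ) = (q : ℂ) := by simp
  rw [e, mul_div_cancel₀ _ hq0] at h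
  exact h

lemma scale_ht (P : ℤ[X]) (q D : ℕ) (hq : 0 < q) (hD : P.natDegree ≤ D) :
    (ht (scaleRoots P (q : ℤ)) : ℝ) ≤ (q : ℝ) ^ D * ht P := by
  have h1 : ht (scaleRoots P (q : ℤ)) ≤ q ^ D * ht P := by
    unfold ht
    apply Finset.sup_le
    intro i hi
    rw [coeff_scaleRoots, Int.natAbs_mul, Int.natAbs_pow, Int.natAbs_natCast, mul_comm]
    apply Nat.mul_le_mul
    · exact Nat.pow_le_pow_right hq (by omega)
    · by_cases h : P.coeff i = 0
      · rw [h]; simp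
      · exact Finset.le_sup (f := fun i => (P.coeff i).natAbs) (mem_support_iff.2 h)
  exact_mod_cast h1

/-- two different numbers `(t - log q) / q`, `(t - log q') / q'` do not both have small values -/
theorem pairs (S : Finset ℕ) (hS : ∀ q ∈ S, 0 < q) (D : ℕ) : ∃ κ : ℝ, 0 < κ ∧ ∀ T : ℝ, ∃ C : ℝ,
    0 < C ∧ ∀ t : ℂ, ‖t‖ ≤ T → ∀ q ∈ S, ∀ q' ∈ S, q ≠ q' → ∀ P Q : ℤ[X], P ≠ 0 → Q ≠ 0 →
      P.natDegree ≤ D → Q.natDegree ≤ D → ∀ H : ℝ, (ht P : ℝ) ≤ H → (ht Q : ℝ) ≤ H →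
      C * H ^ (-κ) ≤ max ‖aeval ((t - (Real.log q : ℂ)) / q) P‖
        ‖aeval ((t - (Real.log q' : ℂ)) / q') Q‖ := by
  obtain ⟨κ, hκ, h⟩ := fam_add S (fun q => ((-Real.log q : ℝ) : ℂ)) (fun i hi j hj hij => by
      rw [← Complex.ofReal_sub]
      exact measT_log_quot i j (hS i hi) (hS j hj) hij) Real.pi measT_pi D
  refine ⟨κ, hκ, fun T => ?_⟩
  obtain ⟨C, hC, h1⟩ := h T
  obtain ⟨B, hB, hBS⟩ := exists_le_ge S (fun q => (q : ℝ) ^ D)
  obtain ⟨B', hB'⟩ : ∃ B' : ℝ, B' = max B 1 := ⟨_, rfl⟩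
  have hB1 : 1 ≤ B' := by rw [hB']; exact le_max_right _ _
  have hB0 : 0 < B' := by linarith
  have hBS' : ∀ q ∈ S, (q : ℝ) ^ D ≤ B' := fun q hq => (hBS q hq).trans (by rw [hB']; exact le_max_left _ _)
  refine ⟨C * B' ^ (-κ) / B', by positivity, ?_⟩
  intro t ht1 q hq q' hq' hne P Q hP hQ hPD hQD H hPH hQH
  have hH1 : 1 ≤ H := (ht_pos P hP).trans hPH
  have hH : 0 < H := by linarith
  have hsr : ∀ (R : ℤ[X]) (m : ℕ), R ≠ 0 → scaleRoots R (m : ℤ) ≠ 0 := fun R m hR => scaleRoots_ne_zero hR _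
  have hbd : ∀ (R : ℤ[X]) (m : ℕ), m ∈ S → R.natDegree ≤ D → (ht R : ℝ) ≤ H →
      (ht (scaleRoots R (m : ℤ)) : ℝ) ≤ B' * H := by
    intro R m hm hR hRH
    refine (scale_ht R m D (hS m hm) hR).trans ?_
    exact mul_le_mul (hBS' m hm) hRH (Nat.cast_nonneg _) hB0.le
  have h2 := (h1 t ht1).1 q hq q' hq' hne (scaleRoots P (q : ℤ)) (scaleRoots Q (q' : ℤ))
    (hsr P q hP) (hsr Q q' hQ) (by rw [natDegree_scaleRoots]; exact hPD)
    (by rw [natDegree_scaleRoots]; exact hQD) (B' * H) (hbd P q hq hPD hPH) (hbd Q q' hq' hQD hQH)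
  rw [scale_eval P q (hS q hq), scale_eval Q q' (hS q' hq')] at h2
  have e : ∀ m : ℕ, t + ((-Real.log m : ℝ) : ℂ) = t - (Real.log m : ℂ) := by
    intro m
    push_cast
    ring
  rw [e, e] at h2
  have hval : ∀ (R : ℤ[X]) (m : ℕ), m ∈ S → R.natDegree ≤ D → ∀ z : ℂ,
      ‖(m : ℂ) ^ R.natDegree * z‖ ≤ B' * ‖z‖ := by
    intro R m hm hR z
    rw [norm_mul, norm_pow, Complex.norm_natCast]
    apply mul_le_mul_of_nonneg_right _ (norm_nonneg _)
    have hm1 : (1 : ℝ) ≤ m := by exact_mod_cast hS m hm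
    exact (pow_le_pow_right₀ hm1 hR).trans (hBS' m hm)
  have h3 : C * (B' * H) ^ (-κ) ≤ B' * max ‖aeval ((t - (Real.log q : ℂ)) / q) P‖
        ‖aeval ((t - (Real.log q' : ℂ)) / q') Q‖ := by
    rw [mul_max_of_nonneg _ _ hB0.le]
    exact h2.trans (max_le_max (hval P q hq hPD _) (hval Q q' hq' hQD _))
  rw [Real.mul_rpow hB0.le hH.le] at h3
  rw [div_mul_eq_mul_div, div_le_iff₀ hB0]
  calc C * B' ^ (-κ) * H ^ (-κ) = C * (B' ^ (-κ) * H ^ (-κ)) := by ring
    _ ≤ _ := h3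
    _ = _ := mul_comm _ _

lemma abs_aeval' (x : ℝ) (P : ℤ[X]) : |aeval x P| = ‖aeval (x : ℂ) P‖ := by
  have := Polynomial.aeval_algebraMap_apply ℂ x P
  rw [Complex.coe_algebraMap] at this
  rw [this, Complex.norm_real, Real.norm_eq_abs]

/-- The Euler–Lehmer constants `c q = γ(0, q)` exist, and `c 1 = γ`. For every `D` and every
finite set `S` of positive integers: two different ones do not both have small values of integer
polynomials of degree `≤ D`, and the near relations of all of them are sparse. -/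
theorem result : ∃ c : ℕ → ℝ,
    (∀ q, 1 ≤ q → Tendsto (fun n => partialSum q n) atTop (𝓝 (c q))) ∧
    c 1 = Real.eulerMascheroniConstant ∧
    ∀ (D : ℕ) (S : Finset ℕ), (∀ q ∈ S, 1 ≤ q) → ∃ κ : ℝ, 0 < κ ∧
      (∃ C : ℝ, 0 < C ∧ ∀ q ∈ S, ∀ q' ∈ S, q ≠ q' → ∀ P Q : ℤ[X], P ≠ 0 → Q ≠ 0 →
        P.natDegree ≤ D → Q.natDegree ≤ D → ∀ H : ℝ, (height P : ℝ) ≤ H → (height Q : ℝ) ≤ H →
        C * H ^ (-κ) ≤ max |aeval (c q) P| |aeval (c q') Q|) ∧
      (∀ w ρ : ℝ, 1 < ρ → ρ < w / κ → ∃ C : ℝ, ∀ Y : ℝ, 3 ≤ Y →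
        (Near S c D w Y).Finite ∧
        ((Near S c D w Y).ncard : ℝ) ≤ Real.log (Real.log Y) / Real.log ρ + C) := by
  obtain ⟨c, hcq⟩ : ∃ c : ℕ → ℝ, ∀ q, c q = (Real.eulerMascheroniConstant - Real.log q) / q :=
    ⟨_, fun _ => rfl⟩
  refine ⟨c, fun q hq => by rw [hcq]; exact eulerLehmer_tendsto q hq, by rw [hcq 1]; simp,
    fun D S hS => ?_⟩
  have hcC : ∀ q, 1 ≤ q → ((c q : ℝ) : ℂ)
      = ((Real.eulerMascheroniConstant : ℂ) - (Real.log q : ℂ)) / q := by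
    intro q hq
    rw [hcq q]
    push_cast
    rfl
  obtain ⟨κ₁, hκ₁, h1⟩ := pairs S hS D
  obtain ⟨C₁, hC₁, h1⟩ := h1 ‖(Real.eulerMascheroniConstant : ℂ)‖
  obtain ⟨κ₂, hκ₂, h2⟩ := same_core Real.pi measT_pi D
  obtain ⟨T, hT, hTS⟩ := exists_le_ge S (fun q => ‖((c q : ℝ) : ℂ)‖)
  obtain ⟨C₂, hC₂, h2⟩ := h2 T
  obtain ⟨κ, hκ⟩ : ∃ κ : ℝ, κ = max κ₁ κ₂ := ⟨_, rfl⟩
  have hκ0 : 0 < κ := by rw [hκ]; exact lt_max_of_lt_left hκ₁
  have hmono : ∀ (a : ℝ) (H : ℝ), 1 ≤ H → a ≤ κ → H ^ (-κ) ≤ H ^ (-a) := fun a H hH ha =>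
    Real.rpow_le_rpow_of_exponent_le hH (by linarith)
  have hpair : ∀ q ∈ S, ∀ q' ∈ S, q ≠ q' → ∀ P Q : ℤ[X], P ≠ 0 → Q ≠ 0 →
      P.natDegree ≤ D → Q.natDegree ≤ D → ∀ H : ℝ, (ht P : ℝ) ≤ H → (ht Q : ℝ) ≤ H →
      C₁ * H ^ (-κ) ≤ max ‖aeval ((c q : ℝ) : ℂ) P‖ ‖aeval ((c q' : ℝ) : ℂ) Q‖ := by
    intro q hq q' hq' hne P Q hP hQ hPD hQD H hPH hQH
    have hH1 : 1 ≤ H := (ht_pos P hP).trans hPH
    have h3 := h1 _ le_rfl q hq q' hq' hne P Q hP hQ hPD hQD H hPH hQH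
    rw [← hcC q (hS q hq), ← hcC q' (hS q' hq')] at h3
    refine le_trans ?_ h3
    exact mul_le_mul_of_nonneg_left (hmono κ₁ H hH1 (by rw [hκ]; exact le_max_left _ _)) hC₁.le
  refine ⟨κ, hκ0, ⟨C₁, hC₁, fun q hq q' hq' hne P Q hP hQ hPD hQD H hPH hQH => ?_⟩,
    fun w ρ hρ hρw => ?_⟩
  · rw [abs_aeval', abs_aeval']
    exact hpair q hq q' hq' hne P Q hP hQ hPD hQD H hPH hQH
  · obtain ⟨C', h3⟩ := sparse_fam S (fun q => ((c q : ℝ) : ℂ)) D κ hκ0
      ⟨min C₁ C₂, lt_min hC₁ hC₂, fun i hi j hj P hP Q hQ hne H hPH hQH => by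
        have hH1 : 1 ≤ H := (ht_pos P hP.1.ne_zero).trans hPH
        have hH0 : 0 ≤ H ^ (-κ) := by positivity
        by_cases hij : i = j
        · subst hij
          have h4 := h2 _ (hTS i hi) P hP Q hQ (fun h => hne (by rw [h])) H hPH hQH
          refine le_trans ?_ h4
          calc min C₁ C₂ * H ^ (-κ) ≤ C₂ * H ^ (-κ) :=
                mul_le_mul_of_nonneg_right (min_le_right _ _) hH0
            _ ≤ C₂ * H ^ (-κ₂) :=
                mul_le_mul_of_nonneg_left (hmono κ₂ H hH1 (by rw [hκ]; exact le_max_right _ _)) hC₂.le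
        · refine le_trans ?_ (hpair i hi j hj hij P Q hP.1.ne_zero hQ.1.ne_zero hP.2.1 hQ.2.1 H hPH hQH)
          exact mul_le_mul_of_nonneg_right (min_le_left _ _) hH0⟩ w ρ hρ hρw
    refine ⟨C', fun Y hY => ?_⟩
    have h4 : Near S c D w Y = {p ∈ NearF S (fun q => ((c q : ℝ) : ℂ)) D w |
        (ht p.2 : ℝ) ≤ Y} := by
      ext p
      constructor
      · rintro ⟨a, b, c', d⟩
        rw [abs_aeval'] at d
        exact ⟨⟨a, b, d⟩, c'⟩
      · rintro ⟨⟨a, b, d⟩, c'⟩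
        refine ⟨a, b, c', ?_⟩
        rw [abs_aeval']
        exact d
    rw [h4]
    exact h3 Y hY

end Pool.Agent.Results.MP_e48a95_nt.EulerLehmerConstants
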