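import Mathlib
import Pool.Agent.TH456.TM.Fam
import Pool.Agent.TH456.TM.AlgDep
import Pool.Agent.X142.HZ.Val

/-!
# `ζ(3)` and Hurwitz zeta values: algebraic near relations

For rational `x` in `(0, 1)`, `x ≠ 1 / 2`, the Hurwitz zeta values `ζ(3, x)` and `ζ(3, 1 - x)` differ by a
nonzero algebraic multiple of `π ^ 3`, and the seven numbers `ζ(3)`, `ζ(3, 1/3)`, `ζ(3, 2/3)`, `ζ(3, 1/4)`,
`ζ(3, 3/4)`, `ζ(3, 1/6)`, `ζ(3, 5/6)` are integer multiples of numbers `ζ(3) + r π ^ 3` with different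
algebraic `r`. We prove quantitative versions of the resulting fact that at most one of them is
algebraic.
-/

set_option autoImplicit false

namespace Pool.Agent.Results.MP_e48a95_nt.HurwitzZetaPairs

open Polynomial Filter Topology Pool.Agent.TH456.TM

/-- The Hurwitz zeta value `ζ(3, x) = ∑_{n ≥ 0} 1 / (n + x)^3`; `ζ(3, 1) = ζ(3)`. -/
noncomputable def hurwitz (x : ℚ) : ℝ := ∑' n : ℕ, 1 / ((n : ℝ) + x) ^ 3

/-- The height of an integer polynomial: the largest absolute value of a coefficient. -/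
noncomputable def height (P : ℤ[X]) : ℕ := P.support.sup fun i => (P.coeff i).natAbs

/-- The irreducible integer polynomials of degree at most `D`, with positive leading coefficient
(one of `P` and `-P`). -/
def Irr (D : ℕ) : Set ℤ[X] := {P | Irreducible P ∧ P.natDegree ≤ D ∧ 0 < P.leadingCoeff}

/-- The seven arguments. -/
def seven : Finset ℚ := {1, 1 / 3, 2 / 3, 1 / 4, 3 / 4, 1 / 6, 5 / 6}

/-- The near relations `(x, P)` of exponent `w`, degree `≤ D` and height `≤ Y` of the seven numbers. -/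
def Near (D : ℕ) (w Y : ℝ) : Set (ℚ × ℤ[X]) :=
  {p | p.1 ∈ seven ∧ p.2 ∈ Irr D ∧ (height p.2 : ℝ) ≤ Y ∧
    |aeval (hurwitz p.1) p.2| ≤ (height p.2 : ℝ) ^ (-w)}

lemma abs_aeval' (x : ℝ) (P : ℤ[X]) : |aeval x P| = ‖aeval (x : ℂ) P‖ := by
  have := Polynomial.aeval_algebraMap_apply ℂ x P
  rw [Complex.coe_algebraMap] at this
  rw [this, Complex.norm_real, Real.norm_eq_abs]

lemma alg_ofReal {r : ℝ} (h : IsAlgebraic ℤ r) : IsAlgebraic ℤ (r : ℂ) :=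
  h.algebraMap

lemma measT_diff (r r' : ℝ) (h : IsAlgebraic ℤ r) (h' : IsAlgebraic ℤ r') (hne : r ≠ r') :
    MeasT (((r' * Real.pi ^ 3 : ℝ) : ℂ) - ((r * Real.pi ^ 3 : ℝ) : ℂ)) := by
  have h1 := measT_mul_alg (measT_pow measT_pi 3 (by norm_num)) ((r' - r : ℝ) : ℂ)
    (alg_ofReal (h'.sub h)) (by
      rw [Ne, Complex.ofReal_eq_zero, sub_eq_zero]
      exact hne.symm)
  have e : ((r' * Real.pi ^ 3 : ℝ) : ℂ) - ((r * Real.pi ^ 3 : ℝ) : ℂ) =
      (Real.pi : ℂ) ^ 3 * ((r' - r : ℝ) : ℂ) := by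
    push_cast
    ring
  rw [e]
  exact h1

/-- scaling the variable -/
lemma scale_eval (P : ℤ[X]) (c : ℤ) (y : ℂ) :
    aeval y (P.comp (C c * X)) = aeval ((c : ℂ) * y) P := by
  rw [aeval_comp]
  congr 1
  simp

lemma scale_ne (P : ℤ[X]) (c : ℤ) (hc : c ≠ 0) (hP : P ≠ 0) : P.comp (C c * X) ≠ 0 := by
  intro h
  apply hP
  ext n
  have h1 := congrArg (fun Q : ℤ[X] => Q.coeff n) h
  simp only [comp_C_mul_X_coeff, coeff_zero, mul_eq_zero, pow_eq_zero_iff', ne_eq] at h1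
  rw [coeff_zero]
  rcases h1 with h1 | h1
  · exact h1
  · exact absurd h1.1 hc

lemma scale_deg (P : ℤ[X]) (c : ℤ) (D : ℕ) (hD : P.natDegree ≤ D) :
    (P.comp (C c * X)).natDegree ≤ D := by
  rw [natDegree_le_iff_coeff_eq_zero] at hD ⊢
  intro n hn
  rw [comp_C_mul_X_coeff, hD n hn, zero_mul]

lemma scale_ht (P : ℤ[X]) (c : ℤ) (D : ℕ) (hc : c ≠ 0) (hD : P.natDegree ≤ D) :
    (ht (P.comp (C c * X)) : ℝ) ≤ ((c.natAbs ^ D : ℕ) : ℝ) * ht P := by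
  have h1 : ht (P.comp (C c * X)) ≤ c.natAbs ^ D * ht P := by
    unfold ht
    apply Finset.sup_le
    intro i hi
    rw [comp_C_mul_X_coeff, Int.natAbs_mul, Int.natAbs_pow, mul_comm]
    have hi' : P.coeff i ≠ 0 := by
      intro h0
      rw [mem_support_iff, comp_C_mul_X_coeff, h0, zero_mul] at hi
      exact hi rfl
    apply Nat.mul_le_mul
    · exact Nat.pow_le_pow_right (Int.natAbs_pos.2 hc) ((le_natDegree_of_ne_zero hi').trans hD)
    · exact Finset.le_sup (f := fun i => (P.coeff i).natAbs) (mem_support_iff.2 hi')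
  exact_mod_cast h1

/-- the general statement for numbers `v i = c i (z + r i π ^ 3)` -/
theorem family (S : Finset ℚ) (v : ℚ → ℝ) (c : ℚ → ℤ) (r : ℚ → ℝ) (z : ℝ) (hc : ∀ i ∈ S, c i ≠ 0)
    (hr : ∀ i ∈ S, IsAlgebraic ℤ (r i)) (hinj : ∀ i ∈ S, ∀ j ∈ S, i ≠ j → r i ≠ r j)
    (hv : ∀ i ∈ S, v i = c i * (z + r i * Real.pi ^ 3)) (D : ℕ) :
    ∃ κ : ℝ, 0 < κ ∧
      (∃ C : ℝ, 0 < C ∧ ∀ i ∈ S, ∀ j ∈ S, i ≠ j → ∀ P Q : ℤ[X], P ≠ 0 → Q ≠ 0 →
        P.natDegree ≤ D → Q.natDegree ≤ D → ∀ H : ℝ, (ht P : ℝ) ≤ H → (ht Q : ℝ) ≤ H →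
        C * H ^ (-κ) ≤ max ‖aeval ((v i : ℝ) : ℂ) P‖ ‖aeval ((v j : ℝ) : ℂ) Q‖) ∧
      (∀ w ρ : ℝ, 1 < ρ → ρ < w / κ → ∃ C : ℝ, ∀ Y : ℝ, 3 ≤ Y →
        {p ∈ NearF S (fun q => ((v q : ℝ) : ℂ)) D w | (ht p.2 : ℝ) ≤ Y}.Finite ∧
        ({p ∈ NearF S (fun q => ((v q : ℝ) : ℂ)) D w | (ht p.2 : ℝ) ≤ Y}.ncard : ℝ) ≤
          Real.log (Real.log Y) / Real.log ρ + C) := by
  obtain ⟨κ₁, hκ₁, h1⟩ := fam_add S (fun q => ((r q * Real.pi ^ 3 : ℝ) : ℂ)) (fun i hi j hj hij =>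
      measT_diff (r i) (r j) (hr i hi) (hr j hj) (hinj i hi j hj hij)) Real.pi measT_pi D
  obtain ⟨C₁, hC₁, h1⟩ := h1 ‖(z : ℂ)‖
  obtain ⟨κ₂, hκ₂, h2⟩ := same_core Real.pi measT_pi D
  obtain ⟨T, hT, hTS⟩ := exists_le_ge S (fun q => ‖((v q : ℝ) : ℂ)‖)
  obtain ⟨C₂, hC₂, h2⟩ := h2 T
  obtain ⟨κ, hκ⟩ : ∃ κ : ℝ, κ = max κ₁ κ₂ := ⟨_, rfl⟩
  have hκ0 : 0 < κ := by rw [hκ]; exact lt_max_of_lt_left hκ₁
  have hmono : ∀ (a : ℝ) (H : ℝ), 1 ≤ H → a ≤ κ → H ^ (-κ) ≤ H ^ (-a) := fun a H hH ha =>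
    Real.rpow_le_rpow_of_exponent_le hH (by linarith)
  obtain ⟨B, hB, hBS⟩ := exists_le_ge S (fun q => ((((c q).natAbs) ^ D : ℕ) : ℝ))
  obtain ⟨B', hB'⟩ : ∃ B' : ℝ, B' = max B 1 := ⟨_, rfl⟩
  have hB1 : 1 ≤ B' := by rw [hB']; exact le_max_right _ _
  have hB0 : 0 < B' := by linarith
  have hBS' : ∀ q ∈ S, ((((c q).natAbs) ^ D : ℕ) : ℝ) ≤ B' :=
    fun q hq => (hBS q hq).trans (by rw [hB']; exact le_max_left _ _)
  obtain ⟨C₃, hC₃⟩ : ∃ C₃ : ℝ, C₃ = C₁ * B' ^ (-κ₁) := ⟨_, rfl⟩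
  have hC₃0 : 0 < C₃ := by rw [hC₃]; positivity
  have hpair : ∀ i ∈ S, ∀ j ∈ S, i ≠ j → ∀ P Q : ℤ[X], P ≠ 0 → Q ≠ 0 →
      P.natDegree ≤ D → Q.natDegree ≤ D → ∀ H : ℝ, (ht P : ℝ) ≤ H → (ht Q : ℝ) ≤ H →
      C₃ * H ^ (-κ) ≤ max ‖aeval ((v i : ℝ) : ℂ) P‖ ‖aeval ((v j : ℝ) : ℂ) Q‖ := by
    intro i hi j hj hne P Q hP hQ hPD hQD H hPH hQH
    have hH1 : 1 ≤ H := (ht_pos P hP).trans hPH
    have hH0 : 0 < H := by linarith
    have hbd : ∀ (R : ℤ[X]) (m : ℚ), m ∈ S → R.natDegree ≤ D → (ht R : ℝ) ≤ H →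
        (ht (R.comp (C (c m) * X)) : ℝ) ≤ B' * H := by
      intro R m hm hR hRH
      refine (scale_ht R (c m) D (hc m hm) hR).trans ?_
      exact mul_le_mul (hBS' m hm) hRH (Nat.cast_nonneg _) hB0.le
    have h3 := (h1 z le_rfl).1 i hi j hj hne (P.comp (C (c i) * X)) (Q.comp (C (c j) * X))
      (scale_ne P _ (hc i hi) hP) (scale_ne Q _ (hc j hj) hQ) (scale_deg P _ D hPD)
      (scale_deg Q _ D hQD) (B' * H) (hbd P i hi hPD hPH) (hbd Q j hj hQD hQH)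
    have e : ∀ m ∈ S, ∀ R : ℤ[X], aeval ((z : ℂ) + ((r m * Real.pi ^ 3 : ℝ) : ℂ)) (R.comp (C (c m) * X)) =
        aeval ((v m : ℝ) : ℂ) R := by
      intro m hm R
      rw [scale_eval, hv m hm]
      congr 1
      push_cast
      ring_nf
    rw [e i hi P, e j hj Q] at h3
    refine le_trans ?_ h3
    rw [Real.mul_rpow hB0.le hH0.le, hC₃, mul_assoc]
    refine mul_le_mul_of_nonneg_left ?_ hC₁.le
    exact mul_le_mul_of_nonneg_left (hmono κ₁ H hH1 (by rw [hκ]; exact le_max_left _ _))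
      (Real.rpow_nonneg hB0.le _)
  refine ⟨κ, hκ0, ⟨C₃, hC₃0, hpair⟩, fun w ρ hρ hρw => ?_⟩
  exact sparse_fam S (fun q => ((v q : ℝ) : ℂ)) D κ hκ0
      ⟨min C₃ C₂, lt_min hC₃0 hC₂, fun i hi j hj P hP Q hQ hne H hPH hQH => by
        have hH1 : 1 ≤ H := (ht_pos P hP.1.ne_zero).trans hPH
        have hH0 : 0 ≤ H ^ (-κ) := by positivity
        by_cases hij : i = j
        · subst hij
          have h4 := h2 _ (hTS i hi) P hP Q hQ (fun h => hne (by rw [h])) H hPH hQH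
          refine le_trans ?_ h4
          calc min C₃ C₂ * H ^ (-κ) ≤ C₂ * H ^ (-κ) :=
                mul_le_mul_of_nonneg_right (min_le_right _ _) hH0
            _ ≤ C₂ * H ^ (-κ₂) :=
                mul_le_mul_of_nonneg_left (hmono κ₂ H hH1 (by rw [hκ]; exact le_max_right _ _)) hC₂.le
        · refine le_trans ?_ (hpair i hi j hj hij P Q hP.1.ne_zero hQ.1.ne_zero hP.2.1 hQ.2.1 H hPH hQH)
          exact mul_le_mul_of_nonneg_right (min_le_left _ _) hH0⟩ w ρ hρ hρw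

/-- the integer factor -/
def fac (x : ℚ) : ℤ :=
  if x = 1 then 1 else if x = 1 / 3 ∨ x = 2 / 3 then 13 else if x = 1 / 4 ∨ x = 3 / 4 then 28 else 91

/-- the coefficient of `π ^ 3` -/
noncomputable def co (x : ℚ) : ℝ :=
  if x = 1 then 0 else if x = 1 / 3 then 2 * √3 / 117 else if x = 2 / 3 then -(2 * √3 / 117)
  else if x = 1 / 4 then 1 / 28 else if x = 3 / 4 then -(1 / 28)
  else if x = 1 / 6 then 2 * √3 / 91 else -(2 * √3 / 91)

lemma sqrt_alg : IsAlgebraic ℤ (√3) := by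
  have h : √(3 : ℝ) ^ 2 = 3 := Real.sq_sqrt (by norm_num)
  have h2 : IsAlgebraic ℤ (√(3 : ℝ) ^ 2) := by
    rw [h]
    have := isAlgebraic_intCast (R := ℤ) (A := ℝ) 3
    push_cast at this
    exact this
  exact IsAlgebraic.of_pow (by norm_num) h2

lemma hurwitz_one : hurwitz 1 = ∑' n : ℕ, 1 / ((n : ℝ) + 1) ^ 3 := by
  unfold hurwitz
  norm_num

lemma hurwitz_hz (x : ℚ) : hurwitz x = Pool.Agent.X142.HZ.hz x := rfl

lemma co_values : co 1 = 0 ∧ co (1 / 3) = 2 * √3 / 117 ∧ co (2 / 3) = -(2 * √3 / 117) ∧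
    co (1 / 4) = 1 / 28 ∧ co (3 / 4) = -(1 / 28) ∧ co (1 / 6) = 2 * √3 / 91 ∧
    co (5 / 6) = -(2 * √3 / 91) := by
  unfold co
  norm_num

lemma fac_values : fac 1 = 1 ∧ fac (1 / 3) = 13 ∧ fac (2 / 3) = 13 ∧
    fac (1 / 4) = 28 ∧ fac (3 / 4) = 28 ∧ fac (1 / 6) = 91 ∧ fac (5 / 6) = 91 := by
  unfold fac
  norm_num

lemma mem_seven {x : ℚ} (hx : x ∈ seven) : x = 1 ∨ x = 1 / 3 ∨ x = 2 / 3 ∨ x = 1 / 4 ∨ x = 3 / 4 ∨
    x = 1 / 6 ∨ x = 5 / 6 := by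
  unfold seven at hx
  simpa only [Finset.mem_insert, Finset.mem_singleton] using hx

lemma co_alg (x : ℚ) (hx : x ∈ seven) : IsAlgebraic ℤ (co x) := by
  obtain ⟨a1, a2, a3, a4, a5, a6, a7⟩ := co_values
  have h1 : ∀ t : ℚ, IsAlgebraic ℤ ((t : ℝ) * √3) := fun t =>
    (Pool.Agent.X142.HZ.rat_alg t).mul sqrt_alg
  have e2 : 2 * √3 / 117 = ((2 / 117 : ℚ) : ℝ) * √3 := by push_cast; ring
  have e3 : -(2 * √3 / 117) = ((-2 / 117 : ℚ) : ℝ) * √3 := by push_cast; ring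
  have e4 : (1 / 28 : ℝ) = ((1 / 28 : ℚ) : ℝ) := by push_cast; ring
  have e5 : (-(1 / 28) : ℝ) = ((-1 / 28 : ℚ) : ℝ) := by push_cast; ring
  have e6 : 2 * √3 / 91 = ((2 / 91 : ℚ) : ℝ) * √3 := by push_cast; ring
  have e7 : -(2 * √3 / 91) = ((-2 / 91 : ℚ) : ℝ) * √3 := by push_cast; ring
  rcases mem_seven hx with rfl | rfl | rfl | rfl | rfl | rfl | rfl
  · rw [a1]; exact isAlgebraic_zero
  · rw [a2, e2]; exact h1 _
  · rw [a3, e3]; exact h1 _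
  · rw [a4, e4]; exact Pool.Agent.X142.HZ.rat_alg _
  · rw [a5, e5]; exact Pool.Agent.X142.HZ.rat_alg _
  · rw [a6, e6]; exact h1 _
  · rw [a7, e7]; exact h1 _

lemma co_inj (x y : ℚ) (hx : x ∈ seven) (hy : y ∈ seven) (hne : x ≠ y) : co x ≠ co y := by
  obtain ⟨a1, a2, a3, a4, a5, a6, a7⟩ := co_values
  have h0 : (0 : ℝ) ≤ √3 := Real.sqrt_nonneg 3
  have h3 : √(3 : ℝ) ^ 2 = 3 := Real.sq_sqrt (by norm_num)
  have hl : (1.7 : ℝ) < √3 := by
    rw [Real.lt_sqrt (by norm_num)]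
    norm_num
  have hu : √3 < (1.8 : ℝ) := by
    rw [Real.sqrt_lt' (by norm_num)]
    norm_num
  rcases mem_seven hx with rfl | rfl | rfl | rfl | rfl | rfl | rfl <;>
  rcases mem_seven hy with rfl | rfl | rfl | rfl | rfl | rfl | rfl <;>
  first
  | exact absurd rfl hne
  | (simp only [a1, a2, a3, a4, a5, a6, a7]
     intro h
     norm_num at hl hu
     linarith)

lemma value (x : ℚ) (hx : x ∈ seven) :
    hurwitz x = (fac x : ℝ) * (hurwitz 1 + co x * Real.pi ^ 3) := by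
  obtain ⟨a1, a2, a3, a4, a5, a6, a7⟩ := co_values
  obtain ⟨b1, b2, b3, b4, b5, b6, b7⟩ := fac_values
  have s3 := Pool.Agent.X142.HZ.sum_third
  have s4 := Pool.Agent.X142.HZ.sum_quarter
  have s6 := Pool.Agent.X142.HZ.sum_sixth
  have d3 := Pool.Agent.X142.HZ.diff_third
  have d4 := Pool.Agent.X142.HZ.diff_quarter
  have d6 := Pool.Agent.X142.HZ.diff_sixth
  have e1 : hurwitz 1 = Pool.Agent.X142.HZ.hz 1 := by rw [hurwitz_hz]; norm_num
  rcases mem_seven hx with rfl | rfl | rfl | rfl | rfl | rfl | rfl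
  · rw [a1, b1]; simp
  · have e : hurwitz (1 / 3) = Pool.Agent.X142.HZ.hz (1 / 3) := by rw [hurwitz_hz]; norm_num
    rw [a2, b2, e, e1]; push_cast; linarith
  · have e : hurwitz (2 / 3) = Pool.Agent.X142.HZ.hz (2 / 3) := by rw [hurwitz_hz]; norm_num
    rw [a3, b3, e, e1]; push_cast; linarith
  · have e : hurwitz (1 / 4) = Pool.Agent.X142.HZ.hz (1 / 4) := by rw [hurwitz_hz]; norm_num
    rw [a4, b4, e, e1]; push_cast; linarith
  · have e : hurwitz (3 / 4) = Pool.Agent.X142.HZ.hz (3 / 4) := by rw [hurwitz_hz]; norm_num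
    rw [a5, b5, e, e1]; push_cast; linarith
  · have e : hurwitz (1 / 6) = Pool.Agent.X142.HZ.hz (1 / 6) := by rw [hurwitz_hz]; norm_num
    rw [a6, b6, e, e1]; push_cast; linarith
  · have e : hurwitz (5 / 6) = Pool.Agent.X142.HZ.hz (5 / 6) := by rw [hurwitz_hz]; norm_num
    rw [a7, b7, e, e1]; push_cast; linarith

/-- `hurwitz 1 = ζ(3)`. For rational `x` in `(0, 1)`, `x ≠ 1 / 2`: the numbers `ζ(3, x)`, `ζ(3, 1 - x)` do not
both have small values of integer polynomials of bounded degree; and the same for any two of the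
seven numbers, whose near relations together are sparse. -/
theorem result :
    hurwitz 1 = ∑' n : ℕ, 1 / ((n : ℝ) + 1) ^ 3 ∧
    (∀ x : ℚ, 0 < x → x < 1 → x ≠ 1 / 2 → ∀ D : ℕ, ∃ κ C : ℝ, 0 < κ ∧ 0 < C ∧
      ∀ P Q : ℤ[X], P ≠ 0 → Q ≠ 0 → P.natDegree ≤ D → Q.natDegree ≤ D →
      ∀ H : ℝ, (height P : ℝ) ≤ H → (height Q : ℝ) ≤ H →
        C * H ^ (-κ) ≤ max |aeval (hurwitz x) P| |aeval (hurwitz (1 - x)) Q|) ∧
    (∀ D : ℕ, ∃ κ : ℝ, 0 < κ ∧
      (∃ C : ℝ, 0 < C ∧ ∀ x ∈ seven, ∀ y ∈ seven, x ≠ y → ∀ P Q : ℤ[X], P ≠ 0 → Q ≠ 0 →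
        P.natDegree ≤ D → Q.natDegree ≤ D → ∀ H : ℝ, (height P : ℝ) ≤ H → (height Q : ℝ) ≤ H →
        C * H ^ (-κ) ≤ max |aeval (hurwitz x) P| |aeval (hurwitz y) Q|) ∧
      (∀ w ρ : ℝ, 1 < ρ → ρ < w / κ → ∃ C : ℝ, ∀ Y : ℝ, 3 ≤ Y →
        (Near D w Y).Finite ∧
        ((Near D w Y).ncard : ℝ) ≤ Real.log (Real.log Y) / Real.log ρ + C)) := by
  refine ⟨hurwitz_one, fun x hx0 hx1 hx D => ?_, fun D => ?_⟩
  · obtain ⟨α, hα, hα0, h⟩ := Pool.Agent.X142.HZ.hz_sub_alg x hx0 hx1 hx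
    have hne : x ≠ 1 - x := by
      intro h1
      exact hx (by linarith)
    have hz' : hurwitz (1 - x) = hurwitz x - α * Real.pi ^ 3 := by
      rw [← h, hurwitz_hz, hurwitz_hz]
      push_cast
      ring
    obtain ⟨κ, hκ, ⟨C, hC, h1⟩, -⟩ := family {x, 1 - x} hurwitz (fun _ => 1)
      (fun y => if y = x then 0 else -α) (hurwitz x) (fun _ _ => one_ne_zero) (fun i _ => by
        split_ifs
        · exact isAlgebraic_zero
        · exact hα.neg) (fun i hi j hj hij => by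
        rw [Finset.mem_insert, Finset.mem_singleton] at hi hj
        rcases hi with rfl | rfl <;> rcases hj with rfl | rfl
        · exact absurd rfl hij
        · skip
          rw [if_pos rfl, if_neg (Ne.symm hne)]
          exact (neg_ne_zero.2 hα0).symm
        · skip
          rw [if_pos rfl, if_neg (Ne.symm hne)]
          exact neg_ne_zero.2 hα0
        · exact absurd rfl hij) (fun i hi => by
        rw [Finset.mem_insert, Finset.mem_singleton] at hi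
        rcases hi with rfl | rfl
        · skip
          rw [if_pos rfl]
          simp
        · skip
          rw [if_neg (Ne.symm hne), hz']
          push_cast
          ring) D
    refine ⟨κ, C, hκ, hC, fun P Q hP hQ hPD hQD H hPH hQH => ?_⟩
    rw [abs_aeval', abs_aeval']
    exact h1 x (by simp) (1 - x) (by simp) hne P Q hP hQ hPD hQD H hPH hQH
  · obtain ⟨κ, hκ, ⟨C, hC, h1⟩, h2⟩ := family seven hurwitz fac co (hurwitz 1) (fun i hi => by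
      obtain ⟨b1, b2, b3, b4, b5, b6, b7⟩ := fac_values
      rcases mem_seven hi with rfl | rfl | rfl | rfl | rfl | rfl | rfl
      · rw [b1]; norm_num
      · rw [b2]; norm_num
      · rw [b3]; norm_num
      · rw [b4]; norm_num
      · rw [b5]; norm_num
      · rw [b6]; norm_num
      · rw [b7]; norm_num) co_alg (fun i hi j hj hij => co_inj i j hi hj hij) value D
    refine ⟨κ, hκ, ⟨C, hC, fun x hx y hy hxy P Q hP hQ hPD hQD H hPH hQH => ?_⟩,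
      fun w ρ hρ hρw => ?_⟩
    · rw [abs_aeval', abs_aeval']
      exact h1 x hx y hy hxy P Q hP hQ hPD hQD H hPH hQH
    · obtain ⟨C', h3⟩ := h2 w ρ hρ hρw
      refine ⟨C', fun Y hY => ?_⟩
      have h4 : Near D w Y = {p ∈ NearF seven (fun q => ((hurwitz q : ℝ) : ℂ)) D w |
          (ht p.2 : ℝ) ≤ Y} := by
        ext p
        constructor
        · rintro ⟨a, b, c', d⟩
          rw [abs_aeval'] at d
          exact ⟨⟨a, b, d⟩, c'⟩
        · rintro ⟨⟨a, b, d⟩, c'⟩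
          refine ⟨a, b, c', ?_⟩
          rw [abs_aeval']
          exact d
      rw [h4]
      exact h3 Y hY

end Pool.Agent.Results.MP_e48a95_nt.HurwitzZetaPairs
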