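import Mathlib
import Pool.Agent.X142.ZG.Conv
import Pool.Agent.X142.ZG.Zeta3

/-!
# Linear relations between `1`, `ζ(3)` and a third number (for instance Euler's constant): a zero-one law

The irrationality exponent of `ζ(3)` is at most `4.68` (library). Together with the geometry of
consecutive best approximations this leaves a gap between the possible values of the uniform
exponents of approximation of `1, ζ(3), t` in the independent case and the trivial values in the
dependent case, for every real number `t`.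
-/

set_option autoImplicit false

namespace Pool.Agent.Results.MP_e48a95_nt.ZetaThreeZeroOne

open Filter

/-- `ζ(3)` -/
noncomputable def zeta3 : ℝ := ∑' n : ℕ, 1 / ((n : ℝ) + 1) ^ 3

/-- For every large real `Q` some integer `1 ≤ q ≤ Q` satisfies `|q ζ(3) - p| ≤ Q ^ (-τ)` and
`|q t - r| ≤ Q ^ (-τ)` with integers `p`, `r`. -/
def UniformPoints (t τ : ℝ) : Prop :=
  ∀ᶠ Q : ℝ in atTop, ∃ q p r : ℤ, 1 ≤ q ∧ (q : ℝ) ≤ Q ∧
    |(q : ℝ) * zeta3 - p| ≤ Q ^ (-τ) ∧ |(q : ℝ) * t - r| ≤ Q ^ (-τ)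

/-- For every large real `H` some integers `a, b, c`, not all zero, of absolute values at most `H`
satisfy `|a + b ζ(3) + c t| ≤ H ^ (-τ)`. -/
def UniformForms (t τ : ℝ) : Prop :=
  ∀ᶠ H : ℝ in atTop, ∃ a b c : ℤ, (a ≠ 0 ∨ b ≠ 0 ∨ c ≠ 0) ∧ |(a : ℝ)| ≤ H ∧ |(b : ℝ)| ≤ H ∧
    |(c : ℝ)| ≤ H ∧ |(a : ℝ) + b * zeta3 + c * t| ≤ H ^ (-τ)

/-- **Zero-one law** for linear dependence of `1, ζ(3), t`. -/
theorem result (t : ℝ) : List.TFAE [
    ¬ LinearIndependent ℚ ![(1 : ℝ), zeta3, t],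
    UniformPoints t (9 / 11),
    ∀ τ : ℝ, τ < 1 → UniformPoints t τ,
    UniformForms t (11 / 2),
    ∀ τ : ℝ, UniformForms t τ] := by
  have hm : Pool.Agent.X142.ZG.MeasE zeta3 (368 / 100) := Pool.Agent.X142.ZG.meas_zeta3
  tfae_have 1 → 3 := by
    intro h τ hτ
    exact Pool.Agent.X142.ZG.rel_sim (fun A B hAB => hm.ne hAB)
      ((Pool.Agent.X262.ZO.rel_iff _ _).1 h) τ hτ
  tfae_have 3 → 2 := by
    intro h
    exact h _ (by norm_num)
  tfae_have 2 → 1 := by
    intro h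
    rw [Pool.Agent.X262.ZO.rel_iff]
    exact Pool.Agent.X142.ZG.sim _ _ _ hm (9 / 11) (by norm_num) (by norm_num) (by norm_num) h
  tfae_have 1 → 5 := by
    intro h τ
    exact Pool.Agent.X262.ZO.rel_lin ((Pool.Agent.X262.ZO.rel_iff _ _).1 h) τ
  tfae_have 5 → 4 := by
    intro h
    exact h _
  tfae_have 4 → 1 := by
    intro h
    rw [Pool.Agent.X262.ZO.rel_iff]
    exact Pool.Agent.X142.ZG.lin _ _ _ hm (11 / 2) (by norm_num) (by norm_num) (by norm_num) h
  tfae_finish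

end Pool.Agent.Results.MP_e48a95_nt.ZetaThreeZeroOne
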